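import Mathlib
import Pool.Agent.Helper89.TG.Final

/-!
Double covers branched along links which have a diagram that is alternating except for one
negative crossing ball: if the diagram reduces step by step to one edge between the ends of the
negative edge, the fundamental group is not left-orderable.
-/

set_option autoImplicit false

namespace Pool.Agent.Helper33.Keep.TongueFillingsOld

open Pool.Agent.Helper42.Th Pool.Agent.Helper89.TG

/-- Let `G` be generated by elements which satisfy the relations of the fundamental group of the
double branched cover of a diagram, all crossing balls of which other than the ball of `δ` are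
filled with positive slopes, and the ball of `δ` with a slope in `[-1 / k, 0)` (in `(-1 / k, 0)`
if `s` holds), `k = k₁ + k₂ + 1`.  Let `U` be the set of the vertices at distance at most `k₁`
from the start of `δ`, and `V` the set of the vertices at distance at most `k₂` from its end.
Suppose that the diagram reduces: a path of two edges `y`, `c` of slope at least `1` from `U` to
`V`, all the other edges used being on one side of it, and another edge of slope at least `1`
from `U` to a vertex (or from a vertex to `V`) allow to add this vertex to `U` (to `V`) and to
delete `c` (to delete `y`); after such steps there is an edge of slope at least `1` from `U` to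
`V`, and `s` holds, or there is another way from `U` to `V`, or a third way out of the start of
`δ`.  Then `G` is not left-orderable. -/
theorem result {E : Type} [Finite E] {G : Type*} [Group G] (Γ : CMap E) (L : Lab G Γ) (δ : E)
    (P : Set E) (F : E → Set G) (F₀ : Set G) (k₁ k₂ : ℕ) (s : Bool)
    (hP : ∀ d, d ≠ δ → d ≠ Γ.flip δ → d ∈ P ∨ Γ.flip d ∈ P)
    (hpos : ∀ d ∈ P, Fill true 0 (L.M d) (L.D d) (F d))
    (hneg : Fill s (k₁ + k₂ + 1) (L.D δ) (L.M δ)⁻¹ F₀) (h : Reduces L δ s k₁ k₂)
    (hgen : Subgroup.closure ((L.elts ∪ ⋃ d ∈ P, F d) ∪ F₀) = ⊤) :
    ¬ (Nontrivial G ∧ ∃ _ : LinearOrder G, ∀ f g h : G, g ≤ h → f * g ≤ f * h) :=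
  main Γ L δ P F F₀ k₁ k₂ s hP hpos hneg h hgen

end Pool.Agent.Helper33.Keep.TongueFillingsOld
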